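import Pool.Agent.H85.BC.Basic

/-!
# MP_0e7a83_an, row APR: approximation by subalgebras
-/

set_option autoImplicit false

open scoped InnerProductSpace Topology
open Filter
open Pool.Agent.H85.BC

namespace Pool.Agent.H46.BC

theorem pf_APR {H : Type} [NormedAddCommGroup H] [InnerProductSpace ℂ H] [CompleteSpace H]
    (hNEAR : T_NEAR H) (hATOM : T_ATOM H) (hCGAP : T_CGAP H) (hQBC : T_QBC H) : T_APR H := by
  classical
  intro N ξ hN hUG U hbc ι A hA
  obtain ⟨F, hF, δ, hδ, hnear⟩ := hNEAR N ξ hN.traceVector hUG (1 / 4) (by norm_num)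
  have hdir : ∀ G : Finset (H →L[ℂ] H), (∀ y ∈ G, y ∈ N) →
      ∃ i, ∀ y ∈ G, ∃ a ∈ A i, ‖(y - a) ξ‖ < δ := by
    intro G
    induction G using Finset.induction_on with
    | empty =>
      intro _
      obtain ⟨i⟩ := hA.nonempty
      exact ⟨i, fun y hy => absurd hy (Finset.notMem_empty y)⟩
    | insert z G hz ih =>
      intro hG
      obtain ⟨i, hi⟩ := ih (fun y hy => hG y (Finset.mem_insert_of_mem hy))
      obtain ⟨j, a, haj, ha⟩ := hA.dense z (hG z (Finset.mem_insert_self z G)) δ hδ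
      obtain ⟨k, hik, hjk⟩ := hA.directed i j
      refine ⟨k, fun y hy => ?_⟩
      rcases Finset.mem_insert.1 hy with rfl | hy
      · exact ⟨a, hjk a haj, ha⟩
      · obtain ⟨b, hb, hb2⟩ := hi y hy
        exact ⟨b, hik b hb, hb2⟩
  obtain ⟨i, hi⟩ := hdir F hF
  have htight : Tight ((A i : VonNeumannAlgebra H) : Set (H →L[ℂ] H)) N ξ (1 / 4) :=
    hnear _ (fun a ha => hA.sub i a ha) (fun y hy => hi y hy)
  obtain ⟨p, hp, hp3⟩ := hATOM N ξ hN.traceVector (A i) (hA.sub i) htight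
  refine ⟨i, p, hp.mem, hp.proj, hp.ne_zero, fun a ha => hp.comm a ha, ?_⟩
  intro x hx
  by_contra hc
  exact hbc (hQBC N ξ hN (A i) p hp hp3 U
    (fun y C h1 h2 h3 h4 => hCGAP N ξ hN.traceVector (A i) htight p hp hp3 U y C h1 h2 h3 h4)
    ⟨x, hx, hc⟩)

end Pool.Agent.H46.BC
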