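import Pool.Agent.H85.BC.Basic

/-!
# MP_0e7a83_an, row SCP: isomorphisms of corners scale the trace of projections
-/

set_option autoImplicit false

open scoped InnerProductSpace Topology
open Filter
open Pool.Agent.H85.BC

namespace Pool.Agent.H46.BC

/-- nonnegative additive functions on an interval are linear -/
theorem lin (G : ℝ → ℝ) (T : ℝ) (hT : 0 < T) (h0 : ∀ s, 0 ≤ G s)
    (hadd : ∀ s t, 0 ≤ s → 0 ≤ t → s + t ≤ T → G (s + t) = G s + G t) (t : ℝ) (ht0 : 0 ≤ t)
    (htT : t ≤ T) : G t * T = G T * t := by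
  have hz : G 0 = 0 := by
    have := hadd 0 0 le_rfl le_rfl (by linarith)
    rw [add_zero] at this
    linarith
  have hmul : ∀ (k : ℕ) (h : ℝ), 0 ≤ h → k * h ≤ T → G (k * h) = k * G h := by
    intro k h hh
    induction k with
    | zero =>
      intro _
      simp [hz]
    | succ k ih =>
      intro hk
      push_cast at hk ⊢
      have h1 : (k : ℝ) * h ≤ T := by nlinarith
      have h2 := hadd (k * h) h (by positivity) hh (by linarith)
      rw [show ((k : ℝ) + 1) * h = k * h + h by ring, h2, ih h1]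
      ring
  have low : ∀ t, 0 ≤ t → t ≤ T → G T * t ≤ G t * T := by
    intro t ht0 htT
    by_contra hc
    push Not at hc
    obtain ⟨n, hn⟩ := exists_nat_gt (G T * T / (G T * t - G t * T))
    have hpos : 0 < G T * t - G t * T := by linarith
    have hn0 : 0 < n := by
      rcases Nat.eq_zero_or_pos n with h | h
      · subst h
        have h1 : 0 ≤ G T * T / (G T * t - G t * T) := by
          have := h0 T
          positivity
        norm_num at hn
        linarith
      · exact h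
    have hn' : (0 : ℝ) < n := by exact_mod_cast hn0
    rw [div_lt_iff₀ hpos] at hn
    set k := ⌊(n : ℝ) * t / T⌋₊ with hk
    have hk1 : (k : ℝ) ≤ n * t / T := Nat.floor_le (by positivity)
    have hk2 : (n : ℝ) * t / T < k + 1 := Nat.lt_floor_add_one _
    have hk1' : (k : ℝ) * (T / n) ≤ t := by
      rw [le_div_iff₀ hT] at hk1
      rw [← mul_div_assoc, div_le_iff₀ hn']
      linarith
    have hn1 : G T = n * G (T / n) := by
      have := hmul n (T / n) (by positivity) (by rw [mul_div_cancel₀ _ hn'.ne'])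
      rwa [mul_div_cancel₀ _ hn'.ne'] at this
    have hk3 : G (k * (T / n)) = k * G (T / n) :=
      hmul k (T / n) (by positivity) (hk1'.trans htT)
    have hk4 : G t = G (k * (T / n)) + G (t - k * (T / n)) := by
      have := hadd (k * (T / n)) (t - k * (T / n)) (by positivity) (by linarith) (by linarith)
      rwa [add_sub_cancel] at this
    have hk5 : k * G (T / n) ≤ G t := by
      rw [hk4, hk3]
      have := h0 (t - k * (T / n))
      linarith
    rw [div_lt_iff₀ hT] at hk2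
    -- n * t < (k + 1) * T
    have h1 : G T * t * n ≤ G t * T * n + G T * T := by
      have h2 : (k : ℝ) * G T ≤ n * G t := by
        rw [hn1]
        nlinarith
      have h3 := h0 T
      have h4 : G T * (n * t) ≤ G T * ((k + 1) * T) := mul_le_mul_of_nonneg_left hk2.le h3
      nlinarith
    nlinarith
  apply le_antisymm
  · have h1 := low (T - t) (by linarith) (by linarith)
    have h2 := hadd t (T - t) ht0 (by linarith) (by linarith)
    rw [add_sub_cancel] at h2
    have h3 : G (T - t) = G T - G t := by linarith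
    rw [h3] at h1
    nlinarith
  · exact low t ht0 htT

theorem pf_SCP {H : Type} [NormedAddCommGroup H] [InnerProductSpace ℂ H] [CompleteSpace H]
    (hNM : T_NM H) (hHALF : T_HALF H) (hEQV : T_EQV H) : T_SCP H := by
  intro N ξ hN p hpN hp q hqN hq θ hθ e heN he hpe
  have htv := hN.traceVector
  -- projections below `p`
  have hle : ∀ f : H →L[ℂ] H, IsStarProjection f → p * f = f → ‖f ξ‖ ^ 2 ≤ ‖p ξ‖ ^ 2 := by
    intro f hf hpf
    have h1 := norm_sq_sub_proj ξ hf hp hpf
    have h2 := sq_nonneg ‖(p - f) ξ‖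
    linarith
  -- equal traces
  have heq : ∀ f ∈ N, IsStarProjection f → p * f = f → ∀ g ∈ N, IsStarProjection g →
      p * g = g → ‖f ξ‖ ^ 2 = ‖g ξ‖ ^ 2 → ‖θ f ξ‖ ^ 2 = ‖θ g ξ‖ ^ 2 := by
    intro f hfN hf hpf g hgN hg hpg hfg
    have hfg' : ‖f ξ‖ = ‖g ξ‖ :=
      (pow_left_inj₀ (norm_nonneg _) (norm_nonneg _) two_ne_zero).1 hfg
    obtain ⟨v, hvN, h1, h2⟩ := hEQV N ξ htv hN.factor f hfN hf g hgN hg hfg'
    have hvf : v * f = v := by rw [← h1]; exact pi_mul_star_mul (h1 ▸ hf)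
    have hgv : g * v = v := by
      rw [← h2, mul_assoc, h1, hvf]
    have hvc : v ∈ corner N p := by
      refine mem_corner hvN ?_ ?_
      · rw [← hgv, ← mul_assoc, hpg]
      · rw [← hvf, mul_assoc, proj_mul_comm_of_le hf hp hpf]
    have hvs : star v ∈ corner N p := corner_star hp hvc
    have h3 : star (θ v) * θ v = θ f := by
      rw [← hθ.star v hvc, ← hθ.mul _ hvs _ hvc, h1]
    have h4 : θ v * star (θ v) = θ g := by
      rw [← hθ.star v hvc, ← hθ.mul _ hvc _ hvs, h2]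
    rw [htv.norm_eq_of_equiv (hθ.maps v hvc).1 h3 h4 (hθ.map_proj hp hfN hf hpf)
      (hθ.map_proj hp hgN hg hpg)]
  have hex : ∀ s : ℝ, ∃ f : H →L[ℂ] H, 0 ≤ s → s ≤ ‖p ξ‖ ^ 2 →
      f ∈ N ∧ IsStarProjection f ∧ p * f = f ∧ ‖f ξ‖ ^ 2 = s := by
    intro s
    by_cases h : 0 ≤ s ∧ s ≤ ‖p ξ‖ ^ 2
    · obtain ⟨f, h1, h2, h3, h4⟩ := hHALF N ξ htv N (fun x hx => hx) 1 (one_mem N)
        (IsStarProjection.one _) (hNM N ξ hN) p hpN hp (one_mul p) s h.1 h.2
      exact ⟨f, fun _ _ => ⟨h1, h2, h3, h4⟩⟩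
    · exact ⟨0, fun h1 h2 => absurd ⟨h1, h2⟩ h⟩
  choose F hF using hex
  set G : ℝ → ℝ := fun s => ‖θ (F s) ξ‖ ^ 2 with hG
  have hGe : ∀ f ∈ N, IsStarProjection f → p * f = f → ‖θ f ξ‖ ^ 2 = G (‖f ξ‖ ^ 2) := by
    intro f hfN hf hpf
    obtain ⟨h1, h2, h3, h4⟩ := hF (‖f ξ‖ ^ 2) (by positivity) (hle f hf hpf)
    exact heq f hfN hf hpf _ h1 h2 h3 h4.symm
  have hadd : ∀ s t, 0 ≤ s → 0 ≤ t → s + t ≤ ‖p ξ‖ ^ 2 → G (s + t) = G s + G t := by
    intro s t hs ht hst
    obtain ⟨h1, h2, h3, h4⟩ := hF (s + t) (by linarith) hst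
    obtain ⟨f, hfN, hf, hff, hfs⟩ := hHALF N ξ htv N (fun x hx => hx) 1 (one_mem N)
        (IsStarProjection.one _) (hNM N ξ hN) (F (s + t)) h1 h2 (one_mul _) s hs
        (by rw [h4]; linarith)
    have hpf : p * f = f := by rw [← hff, ← mul_assoc, h3]
    have hpd : p * (F (s + t) - f) = F (s + t) - f := by rw [mul_sub, h3, hpf]
    have hd := proj_sub hf h2 hff
    have hds := norm_sq_sub_proj ξ hf h2 hff
    have hfc := proj_mem_corner hp hfN hf hpf
    have hFc := proj_mem_corner hp h1 h2 h3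
    have h5 := hGe f hfN hf hpf
    have h6 := hGe (F (s + t) - f) (sub_mem h1 hfN) hd hpd
    rw [hds, h4, hfs, add_sub_cancel_left, hθ.sub hFc hfc] at h6
    rw [hfs] at h5
    have h7 := norm_sq_sub_proj ξ (hθ.map_proj hp hfN hf hpf) (hθ.map_proj hp h1 h2 h3)
      (by rw [← hθ.mul _ hFc _ hfc, hff])
    rw [h6, h5] at h7
    have h8 : G (s + t) = ‖θ (F (s + t)) ξ‖ ^ 2 := rfl
    rw [h8]
    linarith
  have hq' : ‖q ξ‖ ^ 2 = G (‖p ξ‖ ^ 2) := by
    rw [← hGe p hpN hp hp.isIdempotentElem.eq, hθ.map_unit hpN hp hqN hq]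
  rw [hGe e heN he hpe, hq']
  rcases (sq_nonneg ‖p ξ‖).eq_or_lt with h | h
  · have h1 := hle e he hpe
    have h2 : ‖e ξ‖ ^ 2 = 0 := le_antisymm (by rw [h]; exact h1) (by positivity)
    rw [h2, ← h]
  · exact lin G _ h (fun s => by positivity) hadd _ (by positivity) (hle e he hpe)

end Pool.Agent.H46.BC
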